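import Pool.Agent.L7h66.TS.Stm

/-! project TS: S_ENC -/

set_option autoImplicit false

namespace Pool.Agent.L7h22.TS

open Finset Pool.Agent.L7h66.TS

/-- the item which is read at the place `l` -/
def it (n m : ℕ) (hn : 0 < n) (l : Fin m) : Fin n ⊕ Fin n :=
  if h : (l : ℕ) < n then Sum.inl ⟨l, h⟩
  else if h2 : (l : ℕ) < 2 * n then Sum.inl ⟨l - n, by omega⟩
  else if h3 : (l : ℕ) < 3 * n then Sum.inr ⟨l - 2 * n, by omega⟩
  else Sum.inl ⟨0, hn⟩

/-- the edge at the place `l`, as a pair of natural numbers -/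
def en (n l : ℕ) (d : ℕ × ℕ) : ℕ × ℕ :=
  if l < n then (d.1, 4 * n + l)
  else if l < 2 * n then (2 * n + d.2, 4 * n + (l - n))
  else if l < 3 * n then (d.1, 2 * n + d.2)
  else (5 * n, 5 * n + 1 + (l - 3 * n))

theorem en_lt {n m V : ℕ} (_hn : 3 ≤ n) (hm : 3 * n ≤ m) (hm2 : m ≤ 3 * n + 2) (hV : 2 * m ≤ V)
    (l : ℕ) (hl : l < m) (d : ℕ × ℕ) (h1 : d.1 < 2 * n) (h2 : d.2 < 2 * n) :
    (en n l d).1 < (en n l d).2 ∧ (en n l d).2 < V := by
  unfold en
  split_ifs <;> constructor <;> simp only <;> omega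

theorem s_ENC : S_ENC := by
  intro n m V hn hm hm2 hV
  have hn0 : 0 < n := by omega
  refine ⟨it n m hn0, fun l d =>
    (⟨(en n l (d.1, d.2)).1, ((en_lt hn hm hm2 hV l l.2 (d.1, d.2) d.1.2 d.2.2).1.trans
      (en_lt hn hm hm2 hV l l.2 (d.1, d.2) d.1.2 d.2.2).2)⟩,
     ⟨(en n l (d.1, d.2)).2, (en_lt hn hm hm2 hV l l.2 (d.1, d.2) d.1.2 d.2.2).2⟩), ?_⟩
  intro z
  -- the three kinds of places
  have pA : ∀ (i : Fin n) (h : (i : ℕ) < m), it n m hn0 ⟨i, h⟩ = Sum.inl i := by
    intro i h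
    unfold it
    simp
  have pB : ∀ (i : Fin n) (h : n + (i : ℕ) < m), it n m hn0 ⟨n + i, h⟩ = Sum.inl i := by
    intro i h
    unfold it
    have := i.2
    have e1 : ¬ (n + (i : ℕ) < n) := by omega
    have e2 : n + (i : ℕ) < 2 * n := by omega
    simp [e2]
  have pC : ∀ (i : Fin n) (h : 2 * n + (i : ℕ) < m), it n m hn0 ⟨2 * n + i, h⟩ = Sum.inr i := by
    intro i h
    unfold it
    have := i.2
    have e1 : ¬ (2 * n + (i : ℕ) < n) := by omega
    have e2 : ¬ (2 * n + (i : ℕ) < 2 * n) := by omega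
    have e3 : 2 * n + (i : ℕ) < 3 * n := by omega
    simp [e1, e3]
  -- the edges, as naturals
  set E : Fin m → Fin V × Fin V := fun l =>
    (⟨(en n l ((z (it n m hn0 l)).1, (z (it n m hn0 l)).2)).1,
      ((en_lt hn hm hm2 hV l l.2 ((z (it n m hn0 l)).1, (z (it n m hn0 l)).2)
        (z (it n m hn0 l)).1.2 (z (it n m hn0 l)).2.2).1.trans
      (en_lt hn hm hm2 hV l l.2 ((z (it n m hn0 l)).1, (z (it n m hn0 l)).2)
        (z (it n m hn0 l)).1.2 (z (it n m hn0 l)).2.2).2)⟩,
     ⟨(en n l ((z (it n m hn0 l)).1, (z (it n m hn0 l)).2)).2,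
      (en_lt hn hm hm2 hV l l.2 ((z (it n m hn0 l)).1, (z (it n m hn0 l)).2)
        (z (it n m hn0 l)).1.2 (z (it n m hn0 l)).2.2).2⟩) with hE
  -- classification
  have cl : ∀ l : Fin m,
      (∃ i : Fin n, (l : ℕ) = i ∧ ((E l).1 : ℕ) = (z (Sum.inl i)).1 ∧ ((E l).2 : ℕ) = 4 * n + i) ∨
      (∃ i : Fin n, (l : ℕ) = n + i ∧ ((E l).1 : ℕ) = 2 * n + (z (Sum.inl i)).2 ∧
        ((E l).2 : ℕ) = 4 * n + i) ∨
      (∃ i : Fin n, (l : ℕ) = 2 * n + i ∧ ((E l).1 : ℕ) = (z (Sum.inr i)).1 ∧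
        ((E l).2 : ℕ) = 2 * n + (z (Sum.inr i)).2) ∨
      (3 * n ≤ (l : ℕ) ∧ ((E l).1 : ℕ) = 5 * n ∧ ((E l).2 : ℕ) = 5 * n + 1 + ((l : ℕ) - 3 * n)) := by
    intro l
    by_cases h1 : (l : ℕ) < n
    · left
      refine ⟨⟨l, h1⟩, rfl, ?_, ?_⟩
      · have := pA ⟨l, h1⟩ l.2
        simp only [hE, en, h1, if_true]
        have e : it n m hn0 l = Sum.inl ⟨l, h1⟩ := this
        rw [e]
      · simp only [hE, en, h1, if_true]
    · by_cases h2 : (l : ℕ) < 2 * n
      · right; left
        have hi : (l : ℕ) - n < n := by omega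
        have hl : n + ((l : ℕ) - n) = l := by omega
        have e : it n m hn0 l = Sum.inl ⟨(l : ℕ) - n, hi⟩ := by
          unfold it
          simp [h1, h2]
        refine ⟨⟨(l : ℕ) - n, hi⟩, hl.symm, ?_, ?_⟩
        · simp only [hE, en, h1, h2, if_true, if_false]
          rw [e]
        · simp only [hE, en, h1, h2, if_true, if_false]
      · by_cases h3 : (l : ℕ) < 3 * n
        · right; right; left
          have hi : (l : ℕ) - 2 * n < n := by omega
          have hl : 2 * n + ((l : ℕ) - 2 * n) = l := by omega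
          have e : it n m hn0 l = Sum.inr ⟨(l : ℕ) - 2 * n, hi⟩ := by
            unfold it
            simp [h1, h2, h3]
          refine ⟨⟨(l : ℕ) - 2 * n, hi⟩, hl.symm, ?_, ?_⟩
          · simp only [hE, en, h1, h2, h3, if_true, if_false]
            rw [e]
          · simp only [hE, en, h1, h2, h3, if_true, if_false]
            rw [e]
        · right; right; right
          refine ⟨by omega, ?_, ?_⟩
          · simp only [hE, en, h1, h2, h3, if_false]
          · simp only [hE, en, h1, h2, h3, if_false]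
  have lt : ∀ l : Fin m, ((E l).1 : ℕ) < (E l).2 := by
    intro l
    exact (en_lt hn hm hm2 hV l l.2 ((z (it n m hn0 l)).1, (z (it n m hn0 l)).2)
        (z (it n m hn0 l)).1.2 (z (it n m hn0 l)).2.2).1
  have b1 : ∀ i : Fin n ⊕ Fin n, ((z i).1 : ℕ) < 2 * n := fun i => (z i).1.2
  have b2 : ∀ i : Fin n ⊕ Fin n, ((z i).2 : ℕ) < 2 * n := fun i => (z i).2.2
  -- the edges at given places
  have vA : ∀ i : Fin n, ∃ l : Fin m, ((E l).1 : ℕ) = (z (Sum.inl i)).1 ∧
      ((E l).2 : ℕ) = 4 * n + i := by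
    intro i
    have hi := i.2
    rcases cl ⟨i, by omega⟩ with ⟨j, e, e1, e2⟩ | ⟨j, e, e1, e2⟩ | ⟨j, e, e1, e2⟩ | ⟨e, e1, e2⟩
    · have : j = i := Fin.ext e.symm
      subst this
      exact ⟨_, e1, e2⟩
    · simp only at e; omega
    · simp only at e; omega
    · simp only at e; omega
  have vB : ∀ i : Fin n, ∃ l : Fin m, ((E l).1 : ℕ) = 2 * n + (z (Sum.inl i)).2 ∧
      ((E l).2 : ℕ) = 4 * n + i := by
    intro i
    have hi := i.2
    rcases cl ⟨n + i, by omega⟩ with ⟨j, e, e1, e2⟩ | ⟨j, e, e1, e2⟩ | ⟨j, e, e1, e2⟩ | ⟨e, e1, e2⟩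
    · have := j.2
      simp only at e; omega
    · have : j = i := Fin.ext (by simp only at e; omega)
      subst this
      exact ⟨_, e1, e2⟩
    · simp only at e; omega
    · simp only at e; omega
  have vC : ∀ i : Fin n, ∃ l : Fin m, (l : ℕ) = 2 * n + i ∧ ((E l).1 : ℕ) = (z (Sum.inr i)).1 ∧
      ((E l).2 : ℕ) = 2 * n + (z (Sum.inr i)).2 := by
    intro i
    have hi := i.2
    rcases cl ⟨2 * n + i, by omega⟩ with
      ⟨j, e, e1, e2⟩ | ⟨j, e, e1, e2⟩ | ⟨j, e, e1, e2⟩ | ⟨e, e1, e2⟩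
    · have := j.2
      simp only at e; omega
    · have := j.2
      simp only at e; omega
    · have : j = i := Fin.ext (by simp only at e; omega)
      subst this
      exact ⟨_, rfl, e1, e2⟩
    · simp only at e; omega
  constructor
  · constructor
    · rintro ⟨-, hinj⟩ i j hij
      simp only at hij
      obtain ⟨l, hl, e1, e2⟩ := vC i
      obtain ⟨l', hl', e1', e2'⟩ := vC j
      have : l = l' := by
        apply hinj
        show E l = E l'
        apply Prod.ext <;> apply Fin.ext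
        · rw [e1, e1', hij]
        · rw [e2, e2', hij]
      apply Fin.ext
      have := congrArg Fin.val this
      omega
    · intro hinj
      refine ⟨fun l => ?_, fun l l' h => ?_⟩
      · exact Fin.mk_lt_mk.2 (lt l)
      · have h1 : ((E l).1 : ℕ) = (E l').1 := congrArg (fun p : Fin V × Fin V => (p.1 : ℕ)) h
        have h2 : ((E l).2 : ℕ) = (E l').2 := congrArg (fun p : Fin V × Fin V => (p.2 : ℕ)) h
        apply Fin.ext
        rcases cl l with ⟨i, e, e1, e2⟩ | ⟨i, e, e1, e2⟩ | ⟨i, e, e1, e2⟩ | ⟨e, e1, e2⟩ <;>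
        rcases cl l' with ⟨j, e', e1', e2'⟩ | ⟨j, e', e1', e2'⟩ | ⟨j, e', e1', e2'⟩ | ⟨e', e1', e2'⟩
        · omega
        · have := b1 (Sum.inl i); omega
        · have := b2 (Sum.inr j); omega
        · have := i.2; omega
        · have := b1 (Sum.inl j); omega
        · omega
        · have := b1 (Sum.inr j); omega
        · have := i.2; omega
        · have := b2 (Sum.inr i); omega
        · have := b1 (Sum.inr i); omega
        · have : i = j := by
            apply hinj
            simp only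
            apply Prod.ext <;> apply Fin.ext
            · omega
            · omega
          rw [e, e', this]
        · have := b2 (Sum.inr i); omega
        · have := j.2; omega
        · have := j.2; omega
        · have := b2 (Sum.inr j); omega
        · omega
  · constructor
    · rintro ⟨u, v, w, ⟨l1, h1⟩, ⟨l2, h2⟩, ⟨l3, h3⟩⟩
      have a1 : ((E l1).1 : ℕ) = u := congrArg (fun p : Fin V × Fin V => (p.1 : ℕ)) h1
      have a2 : ((E l1).2 : ℕ) = v := congrArg (fun p : Fin V × Fin V => (p.2 : ℕ)) h1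
      have a3 : ((E l2).1 : ℕ) = v := congrArg (fun p : Fin V × Fin V => (p.1 : ℕ)) h2
      have a4 : ((E l2).2 : ℕ) = w := congrArg (fun p : Fin V × Fin V => (p.2 : ℕ)) h2
      have a5 : ((E l3).1 : ℕ) = u := congrArg (fun p : Fin V × Fin V => (p.1 : ℕ)) h3
      have a6 : ((E l3).2 : ℕ) = w := congrArg (fun p : Fin V × Fin V => (p.2 : ℕ)) h3
      rcases cl l1 with ⟨i, e, e1, e2⟩ | ⟨i, e, e1, e2⟩ | ⟨i, e, e1, e2⟩ | ⟨e, e1, e2⟩ <;>
      rcases cl l2 with ⟨j, e', e1', e2'⟩ | ⟨j, e', e1', e2'⟩ | ⟨j, e', e1', e2'⟩ | ⟨e', e1', e2'⟩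
      · have := b1 (Sum.inl j); omega
      · have := b2 (Sum.inl j); omega
      · have := b1 (Sum.inr j); omega
      · have := i.2; omega
      · have := b1 (Sum.inl j); omega
      · have := b2 (Sum.inl j); omega
      · have := b1 (Sum.inr j); omega
      · have := i.2; omega
      · have := b1 (Sum.inl j); omega
      · -- the triangle
        rcases cl l3 with ⟨k, f, f1, f2⟩ | ⟨k, f, f1, f2⟩ | ⟨k, f, f1, f2⟩ | ⟨f, f1, f2⟩
        · have hk : k = j := Fin.ext (by omega)
          subst hk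
          refine ⟨k, i, ?_⟩
          apply Prod.ext <;> apply Fin.ext
          · omega
          · omega
        · have := b1 (Sum.inr i); omega
        · have := b2 (Sum.inr k); omega
        · have := j.2; omega
      · have := b1 (Sum.inr j); omega
      · have := b2 (Sum.inr i); omega
      · have := b1 (Sum.inl j); omega
      · have := b2 (Sum.inl j); omega
      · have := b1 (Sum.inr j); omega
      · omega
    · rintro ⟨i, j, hij⟩
      obtain ⟨l1, e1, e2⟩ := vA i
      obtain ⟨l2, f1, f2⟩ := vB i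
      obtain ⟨l3, -, g1, g2⟩ := vC j
      refine ⟨(E l3).1, (E l3).2, (E l1).2, ⟨l3, rfl⟩, ⟨l2, ?_⟩, ⟨l1, ?_⟩⟩
      · show E l2 = _
        apply Prod.ext <;> apply Fin.ext
        · show ((E l2).1 : ℕ) = (E l3).2
          rw [f1, g2, hij]
        · show ((E l2).2 : ℕ) = (E l1).2
          rw [f2, e2]
      · show E l1 = _
        apply Prod.ext <;> apply Fin.ext
        · show ((E l1).1 : ℕ) = (E l3).1
          rw [e1, g1, hij]
        · rfl

end Pool.Agent.L7h22.TS
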