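import Pool.Agent.L7h66.TS.Stm

/-! project TS: S_GOOD -/

set_option autoImplicit false

namespace Pool.Agent.L7h22.TS

open Finset Pool.Agent.L7h66.TS

/-- few functions have equal values at two given places -/
theorem eq_count {ι D : Type} [Fintype ι] [DecidableEq ι] [Fintype D] [DecidableEq D] (a b : ι)
    (hab : a ≠ b) :
    ((univ : Finset (ι → D)).filter (fun z => z a = z b)).card * Fintype.card D ≤
      Fintype.card D ^ Fintype.card ι := by
  have h : ((univ : Finset (ι → D)).filter (fun z => z a = z b)).card * Fintype.card D =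
      (((univ : Finset (ι → D)).filter (fun z => z a = z b)) ×ˢ (univ : Finset D)).card := by
    rw [card_product, card_univ]
  rw [h, ← Fintype.card_fun, ← card_univ]
  apply card_le_card_of_injOn (fun p => Function.update p.1 b p.2) (fun _ _ => mem_coe.2 (mem_univ _))
  intro p hp q hq hpq
  rw [mem_coe, mem_product, mem_filter] at hp hq
  have h1 : p.2 = q.2 := by
    have := congrFun hpq b
    simpa using this
  have h2 : ∀ c, c ≠ b → p.1 c = q.1 c := by
    intro c hc
    have := congrFun hpq c
    simpa [Function.update_of_ne hc] using this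
  apply Prod.ext _ h1
  funext c
  by_cases hc : c = b
  · rw [hc, ← hp.1.2, ← hq.1.2]
    exact h2 a hab
  · exact h2 c hc

theorem s_GOOD : S_GOOD := by
  classical
  intro n hn
  let D := Fin (2 * n) × Fin (2 * n)
  have cD : Fintype.card D = (2 * n) ^ 2 := by
    show Fintype.card (Fin (2 * n) × Fin (2 * n)) = _
    rw [Fintype.card_prod, Fintype.card_fin]; ring
  have cI : Fintype.card (Fin n ⊕ Fin n) = 2 * n := by
    rw [Fintype.card_sum, Fintype.card_fin]; ring
  set A : Finset (Fin n ⊕ Fin n → D) := univ.filter (fun z =>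
      Function.Injective (fun i => z (Sum.inr i)) ∧ ∀ i i', z (Sum.inl i) ≠ z (Sum.inr i')) with hA
  set P : Finset ((Fin n ⊕ Fin n) × (Fin n ⊕ Fin n)) :=
    ((univ : Finset (Fin n × Fin n)).filter (fun p => p.1 < p.2)).image
      (fun p => ((Sum.inr p.1 : Fin n ⊕ Fin n), (Sum.inr p.2 : Fin n ⊕ Fin n))) ∪
    (univ : Finset (Fin n × Fin n)).image
      (fun p => ((Sum.inl p.1 : Fin n ⊕ Fin n), (Sum.inr p.2 : Fin n ⊕ Fin n))) with hP
  have cP : 2 * P.card ≤ 3 * n ^ 2 := by
    have h1 : P.card ≤ ((univ : Finset (Fin n × Fin n)).filter (fun p => p.1 < p.2)).card +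
        (univ : Finset (Fin n × Fin n)).card :=
      (card_union_le _ _).trans (Nat.add_le_add card_image_le card_image_le)
    have h2 : (univ : Finset (Fin n × Fin n)).card = n ^ 2 := by
      rw [card_univ, Fintype.card_prod, Fintype.card_fin]; ring
    have h3 : ((univ : Finset (Fin n × Fin n)).filter (fun p => p.1 < p.2)).card +
        ((univ : Finset (Fin n × Fin n)).filter (fun p => p.2 < p.1)).card ≤ n ^ 2 := by
      rw [← h2, ← card_union_of_disjoint]
      · exact card_le_card (subset_univ _)
      · rw [disjoint_left]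
        intro p hp hq
        rw [mem_filter] at hp hq
        exact absurd hp.2 (not_lt.2 hq.2.le)
    have h4 : ((univ : Finset (Fin n × Fin n)).filter (fun p => p.1 < p.2)).card =
        ((univ : Finset (Fin n × Fin n)).filter (fun p => p.2 < p.1)).card := by
      apply card_bij (fun p _ => (p.2, p.1))
      · intro p hp
        rw [mem_filter] at hp ⊢
        exact ⟨mem_univ _, hp.2⟩
      · intro p _ q _ h
        simp only [Prod.mk.injEq] at h
        exact Prod.ext h.2 h.1
      · intro p hp
        rw [mem_filter] at hp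
        exact ⟨(p.2, p.1), by rw [mem_filter]; exact ⟨mem_univ _, hp.2⟩, rfl⟩
    omega
  have hPne : ∀ p ∈ P, p.1 ≠ p.2 := by
    intro p hp
    rw [hP, mem_union, mem_image, mem_image] at hp
    rcases hp with ⟨q, hq, rfl⟩ | ⟨q, hq, rfl⟩
    · rw [mem_filter] at hq
      intro h
      exact absurd (Sum.inr.inj h) hq.2.ne
    · intro h
      exact absurd h (by simp)
  -- the bad ones
  have hbad : Aᶜ ⊆ P.biUnion (fun p => univ.filter (fun z : Fin n ⊕ Fin n → D => z p.1 = z p.2)) := by
    intro z hz
    rw [mem_compl, hA, mem_filter] at hz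
    rw [mem_biUnion]
    by_cases h1 : Function.Injective (fun i => z (Sum.inr i))
    · by_cases h2 : ∀ i i', z (Sum.inl i) ≠ z (Sum.inr i')
      · exact absurd ⟨mem_univ _, h1, h2⟩ hz
      · push Not at h2
        obtain ⟨i, i', h⟩ := h2
        exact ⟨(Sum.inl i, Sum.inr i'), by
          rw [hP, mem_union, mem_image, mem_image]; exact Or.inr ⟨(i, i'), mem_univ _, rfl⟩,
          by rw [mem_filter]; exact ⟨mem_univ _, h⟩⟩
    · unfold Function.Injective at h1
      push Not at h1
      obtain ⟨i, j, h, hij⟩ := h1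
      rcases lt_or_gt_of_ne hij with hlt | hlt
      · exact ⟨(Sum.inr i, Sum.inr j), by
          rw [hP, mem_union, mem_image, mem_image]
          exact Or.inl ⟨(i, j), by rw [mem_filter]; exact ⟨mem_univ _, hlt⟩, rfl⟩,
          by rw [mem_filter]; exact ⟨mem_univ _, h⟩⟩
      · exact ⟨(Sum.inr j, Sum.inr i), by
          rw [hP, mem_union, mem_image, mem_image]
          exact Or.inl ⟨(j, i), by rw [mem_filter]; exact ⟨mem_univ _, hlt⟩, rfl⟩,
          by rw [mem_filter]; exact ⟨mem_univ _, h.symm⟩⟩
  set N := ((2 * n) ^ 2) ^ (2 * n) with hN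
  have hcard : Aᶜ.card * (2 * n) ^ 2 ≤ P.card * N := by
    calc Aᶜ.card * (2 * n) ^ 2
        ≤ (∑ p ∈ P, (univ.filter (fun z : Fin n ⊕ Fin n → D => z p.1 = z p.2)).card) *
          (2 * n) ^ 2 := Nat.mul_le_mul_right _ ((card_le_card hbad).trans card_biUnion_le)
      _ = ∑ p ∈ P, (univ.filter (fun z : Fin n ⊕ Fin n → D => z p.1 = z p.2)).card *
          (2 * n) ^ 2 := by rw [sum_mul]
      _ ≤ ∑ p ∈ P, N := by
          apply sum_le_sum
          intro p hp
          have := eq_count (D := D) p.1 p.2 (hPne p hp)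
          rw [cD, cI] at this
          exact this
      _ = P.card * N := by rw [sum_const, smul_eq_mul]
  have htot : A.card + Aᶜ.card = N := by
    rw [card_add_card_compl, Fintype.card_fun, cD, cI]
  -- 8 n^2 * bad <= 3 n^2 N
  have h8 : n ^ 2 * (8 * Aᶜ.card) ≤ n ^ 2 * (3 * N) := by
    calc n ^ 2 * (8 * Aᶜ.card) = 2 * (Aᶜ.card * (2 * n) ^ 2) := by ring
      _ ≤ 2 * (P.card * N) := Nat.mul_le_mul_left _ hcard
      _ = (2 * P.card) * N := by ring
      _ ≤ (3 * n ^ 2) * N := Nat.mul_le_mul_right _ cP
      _ = n ^ 2 * (3 * N) := by ring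
  have h9 : 8 * Aᶜ.card ≤ 3 * N := Nat.le_of_mul_le_mul_left h8 (by positivity)
  omega

end Pool.Agent.L7h22.TS
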