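import Pool.Agent.L7h66.TS.Stm

/-! project TS: S_NUM -/

set_option autoImplicit false

namespace Pool.Agent.L7h22.TS

open Finset Pool.Agent.L7h66.TS

/-- one term of the binomial theorem -/
theorem choose_mul_pow_le (n b : ℕ) (x : ℝ) (hx : 0 ≤ x) :
    (n.choose b : ℝ) * x ^ b ≤ (1 + x) ^ n := by
  rcases le_or_gt b n with h | h
  · rw [add_comm, add_pow]
    have := single_le_sum (s := range (n + 1)) (f := fun m => x ^ m * 1 ^ (n - m) * (n.choose m : ℝ))
      (fun m _ => by positivity) (mem_range.2 (Nat.lt_succ_of_le h))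
    simp only [one_pow, mul_one] at this ⊢
    rw [mul_comm]
    exact this
  · rw [Nat.choose_eq_zero_of_lt h]
    simp only [Nat.cast_zero, zero_mul]
    positivity

theorem one_add_pow_le_exp (n : ℕ) (x : ℝ) (hx : 0 ≤ x) : (1 + x) ^ n ≤ Real.exp (n * x) := by
  rw [Real.exp_nat_mul]
  apply pow_le_pow_left₀ (by positivity)
  linarith [Real.add_one_le_exp x]

theorem lam_pos {k : ℕ} (hk : 1 ≤ k) : 512 ≤ lam k := by
  unfold lam
  have : 1 ≤ k ^ 2 := Nat.one_le_pow _ _ hk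
  omega

theorem LL_pos {k : ℕ} (hk : 1 ≤ k) : 1 ≤ LL k := by
  have := lam_pos hk
  unfold LL
  have h : 0 < 32 * k * lam k ^ 2 := by positivity
  omega

theorem th_pos {k : ℕ} (hk : 1 ≤ k) : 0 < th k := by
  have h1 : (0 : ℝ) < (LL k : ℝ) := by exact_mod_cast LL_pos hk
  have h2 : (0 : ℝ) < (k : ℝ) := by exact_mod_cast hk
  unfold th
  positivity

theorem eight_seven : (7 / 8 : ℝ) ^ 512 ≤ (1 / 2) ^ 98 := by
  have h1 : (7 / 8 : ℝ) ^ 64 ≤ 1 / 5000 := by norm_num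
  calc (7 / 8 : ℝ) ^ 512 = ((7 / 8 : ℝ) ^ 64) ^ 8 := by rw [← pow_mul]
    _ ≤ (1 / 5000) ^ 8 := pow_le_pow_left₀ (by positivity) h1 _
    _ ≤ (1 / 2) ^ 98 := by norm_num

/-- `k ≤ 2 ^ (k-1)` -/
theorem le_two_pow {k : ℕ} (hk : 1 ≤ k) : (k : ℝ) ≤ 2 ^ (k - 1) := by
  obtain ⟨j, rfl⟩ : ∃ j, k = j + 1 := ⟨k - 1, by omega⟩
  rw [Nat.add_sub_cancel]
  have : j < 2 ^ j := Nat.lt_two_pow_self
  exact_mod_cast this

theorem num2 {k n : ℕ} (hk : 1 ≤ k) :
    (1 / 8 : ℝ) ^ bb k n * ((lam k * bb k n + bb k n / lam k).choose (lam k * bb k n)) ≤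
      (1 / 2) ^ bb k n := by
  set b := bb k n
  set L := lam k with hL
  have hL512 : 512 ≤ L := lam_pos hk
  have hLr : (512 : ℝ) ≤ (L : ℝ) := by exact_mod_cast hL512
  set f := b / L with hf
  have hLf : L * f ≤ b := Nat.mul_div_le b L
  have hsymm : (L * b + f).choose (L * b) = (L * b + f).choose f := by
    rw [Nat.choose_symm_add]
  rw [hsymm]
  -- C(N, f) <= L^(2f) (1 + 1/L^2)^N
  have h1 := choose_mul_pow_le (L * b + f) f (1 / (L : ℝ) ^ 2) (by positivity)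
  have h2 := one_add_pow_le_exp (L * b + f) (1 / (L : ℝ) ^ 2) (by positivity)
  have hx : ((L * b + f : ℕ) : ℝ) * (1 / (L : ℝ) ^ 2) ≤ b * (1 / 2) := by
    have hfb : (f : ℝ) ≤ b := by
      have : f ≤ b := Nat.div_le_self _ _
      exact_mod_cast this
    have hb0 : (0 : ℝ) ≤ b := Nat.cast_nonneg _
    push_cast
    rw [mul_one_div, div_le_iff₀ (by positivity)]
    nlinarith [mul_nonneg hb0 (by linarith : (0 : ℝ) ≤ L - 512)]
  have h3 : Real.exp (b * (1 / 2)) ≤ 2 ^ b := by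
    rw [Real.exp_nat_mul]
    apply pow_le_pow_left₀ (Real.exp_pos _).le
    have := Real.exp_one_lt_d9
    have e : Real.exp (1 / 2) ^ 2 = Real.exp 1 := by
      rw [← Real.exp_nat_mul]; norm_num
    nlinarith [Real.exp_pos (1 / 2 : ℝ)]
  have h4 : ((L * b + f).choose f : ℝ) * (1 / (L : ℝ) ^ 2) ^ f ≤ 2 ^ b :=
    h1.trans (h2.trans ((Real.exp_le_exp.2 hx).trans h3))
  -- L^2 <= 2^L
  have h5 : ((L : ℝ) ^ 2) ^ f ≤ 2 ^ b := by
    have h6 : L ^ 2 ≤ 2 ^ L := by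
      have : ∀ m : ℕ, 4 ≤ m → m ^ 2 ≤ 2 ^ m := by
        intro m hm
        induction m, hm using Nat.le_induction with
        | base => norm_num
        | succ m hm ih =>
          have e : 2 ^ (m + 1) = 2 * 2 ^ m := by ring
          rw [e]
          have h9 : (m + 1) ^ 2 ≤ 2 * m ^ 2 := by nlinarith
          omega
      exact this L (by omega)
    have h7 : ((L : ℝ) ^ 2) ≤ 2 ^ L := by exact_mod_cast h6
    calc ((L : ℝ) ^ 2) ^ f ≤ ((2 : ℝ) ^ L) ^ f := pow_le_pow_left₀ (by positivity) h7 _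
      _ = 2 ^ (L * f) := by rw [pow_mul]
      _ ≤ 2 ^ b := pow_le_pow_right₀ (by norm_num) hLf
  have h8 : ((L * b + f).choose f : ℝ) ≤ 4 ^ b := by
    have hLpos : (0 : ℝ) < ((L : ℝ) ^ 2) ^ f := by positivity
    have : ((L * b + f).choose f : ℝ) =
        (((L * b + f).choose f : ℝ) * (1 / (L : ℝ) ^ 2) ^ f) * ((L : ℝ) ^ 2) ^ f := by
      rw [mul_assoc, ← mul_pow, one_div_mul_cancel (by positivity), one_pow, mul_one]
    rw [this]
    calc (((L * b + f).choose f : ℝ) * (1 / (L : ℝ) ^ 2) ^ f) * ((L : ℝ) ^ 2) ^ f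
        ≤ 2 ^ b * 2 ^ b := mul_le_mul h4 h5 hLpos.le (by positivity)
      _ = 4 ^ b := by rw [← mul_pow]; norm_num
  calc (1 / 8 : ℝ) ^ b * ((L * b + f).choose f) ≤ (1 / 8 : ℝ) ^ b * 4 ^ b :=
        mul_le_mul_of_nonneg_left h8 (by positivity)
    _ = (1 / 2) ^ b := by rw [← mul_pow]; norm_num

theorem num1 {k n : ℕ} (hk : 1 ≤ k) (hb : 1 ≤ bb k n) :
    (7 / 8 : ℝ) ^ (lam k * bb k n) * (n.choose (bb k n)) ≤ (1 / 2) ^ bb k n := by
  set b := bb k n with hbdef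
  have hk0 : (0 : ℝ) < k := by exact_mod_cast hk
  have hlam : (0 : ℝ) < (lam k : ℝ) := by
    have := lam_pos hk
    exact_mod_cast (by omega : 0 < lam k)
  have hLL : (0 : ℝ) < (LL k : ℝ) := by exact_mod_cast LL_pos hk
  have hth := th_pos hk
  have hb0 : (0 : ℝ) < b := by exact_mod_cast hb
  -- n / b <= 8 lam / th
  have hnb : (n : ℝ) / b ≤ 8 * lam k / th k := by
    have h1 : th k * n / (4 * lam k) < b + 1 := Nat.lt_floor_add_one _
    have h2 : (b : ℝ) + 1 ≤ 2 * b := by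
      have : (1 : ℝ) ≤ b := by exact_mod_cast hb
      linarith
    have h3 : th k * n / (4 * lam k) ≤ 2 * b := (h1.le).trans h2
    rw [div_le_iff₀ (by positivity)] at h3
    rw [div_le_div_iff₀ hb0 hth]
    nlinarith
  -- C(n,b) <= (e n / b)^b
  have hn0 : (0 : ℝ) < n := by
    by_contra h
    have h' : (n : ℝ) = 0 := le_antisymm (not_lt.1 h) (Nat.cast_nonneg _)
    have : b = 0 := by
      rw [hbdef]; unfold bb; rw [h']; simp
    omega
  have hC : (n.choose b : ℝ) ≤ (Real.exp 1 * (n / b)) ^ b := by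
    have h1 := choose_mul_pow_le n b (b / n) (by positivity)
    have h2 := one_add_pow_le_exp n ((b : ℝ) / n) (by positivity)
    have h3 : (n : ℝ) * (b / n) = b * 1 := by field_simp
    rw [h3, Real.exp_nat_mul] at h2
    have h4 := h1.trans h2
    have h5 : (n.choose b : ℝ) = ((n.choose b : ℝ) * ((b : ℝ) / n) ^ b) * ((n : ℝ) / b) ^ b := by
      rw [mul_assoc, ← mul_pow]
      have : (b : ℝ) / n * (n / b) = 1 := by field_simp
      rw [this, one_pow, mul_one]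
    rw [h5, mul_pow]
    exact mul_le_mul_of_nonneg_right h4 (by positivity)
  have hC2 : (n.choose b : ℝ) ≤ (3 * (8 * lam k / th k)) ^ b := by
    apply hC.trans
    apply pow_le_pow_left₀ (by positivity)
    have := Real.exp_one_lt_d9
    apply mul_le_mul _ hnb (by positivity) (by norm_num)
    linarith
  -- the value of 8 lam / th
  have hval : 8 * (lam k : ℝ) / th k = 2 ^ 35 * (k : ℝ) ^ 6 * (2 ^ 54 * (k : ℝ) ^ 10) ^ k := by
    have e1 : (lam k : ℝ) = 512 * (k : ℝ) ^ 2 := by unfold lam; push_cast; ring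
    have e2 : (LL k : ℝ) = 2 ^ 23 * (k : ℝ) ^ 5 := by
      unfold LL; push_cast; rw [e1]; ring
    unfold th
    rw [e1, e2]
    have e3 : (1 / (256 * ((2 : ℝ) ^ 23 * (k : ℝ) ^ 5) ^ 2)) ^ k =
        1 / ((2 ^ 54 * (k : ℝ) ^ 10) ^ k) := by
      rw [one_div_pow]
      congr 2
      ring
    rw [e3]
    have h1 : (0 : ℝ) < (2 ^ 54 * (k : ℝ) ^ 10) ^ k := by positivity
    field_simp
    ring
  -- the bound by powers of two
  have hk2 := le_two_pow hk
  have hbound : 3 * (8 * (lam k : ℝ) / th k) ≤ 2 ^ (98 * k ^ 2 - 1) := by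
    rw [hval]
    have h1 : (k : ℝ) ^ 6 ≤ 2 ^ (6 * (k - 1)) := by
      calc (k : ℝ) ^ 6 ≤ (2 ^ (k - 1)) ^ 6 := pow_le_pow_left₀ hk0.le hk2 _
        _ = 2 ^ (6 * (k - 1)) := by rw [← pow_mul, mul_comm]
    have h2 : (2 ^ 54 * (k : ℝ) ^ 10) ^ k ≤ 2 ^ ((54 + 10 * (k - 1)) * k) := by
      rw [pow_mul]
      apply pow_le_pow_left₀ (by positivity)
      rw [pow_add]
      apply mul_le_mul_of_nonneg_left _ (by positivity)
      calc (k : ℝ) ^ 10 ≤ (2 ^ (k - 1)) ^ 10 := pow_le_pow_left₀ hk0.le hk2 _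
        _ = 2 ^ (10 * (k - 1)) := by rw [← pow_mul, mul_comm]
    calc 3 * (2 ^ 35 * (k : ℝ) ^ 6 * (2 ^ 54 * (k : ℝ) ^ 10) ^ k)
        ≤ 2 ^ 2 * (2 ^ 35 * 2 ^ (6 * (k - 1)) * 2 ^ ((54 + 10 * (k - 1)) * k)) := by
          apply mul_le_mul (by norm_num) _ (by positivity) (by positivity)
          apply mul_le_mul _ h2 (by positivity) (by positivity)
          exact mul_le_mul_of_nonneg_left h1 (by positivity)
      _ = 2 ^ (2 + (35 + 6 * (k - 1) + (54 + 10 * (k - 1)) * k)) := by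
          rw [← pow_add, ← pow_add, ← pow_add]
      _ ≤ 2 ^ (98 * k ^ 2 - 1) := by
          apply pow_le_pow_right₀ (by norm_num)
          obtain ⟨j, rfl⟩ : ∃ j, k = j + 1 := ⟨k - 1, by omega⟩
          simp only [Nat.add_sub_cancel]
          have : 98 * (j + 1) ^ 2 = 98 * (j * j) + 196 * j + 98 := by ring
          rw [this]
          have h9 : (54 + 10 * j) * (j + 1) = 10 * (j * j) + 64 * j + 54 := by ring
          rw [h9]
          omega
  have h78 : (7 / 8 : ℝ) ^ (lam k) ≤ (1 / 2) ^ (98 * k ^ 2) := by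
    unfold lam
    rw [pow_mul, pow_mul]
    exact pow_le_pow_left₀ (by positivity) eight_seven _
  have hk21 : 1 ≤ k ^ 2 := Nat.one_le_pow _ _ hk
  calc (7 / 8 : ℝ) ^ (lam k * b) * (n.choose b)
      ≤ ((1 / 2) ^ (98 * k ^ 2)) ^ b * (2 ^ (98 * k ^ 2 - 1)) ^ b := by
        rw [pow_mul]
        apply mul_le_mul (pow_le_pow_left₀ (by positivity) h78 _) _ (by positivity) (by positivity)
        exact hC2.trans (pow_le_pow_left₀ (by positivity) hbound _)
    _ = (1 / 2) ^ b := by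
        rw [← mul_pow]
        congr 1
        obtain ⟨j, hj⟩ : ∃ j, 98 * k ^ 2 = j + 1 := ⟨98 * k ^ 2 - 1, by omega⟩
        rw [hj, Nat.add_sub_cancel, pow_succ, one_div_pow]
        field_simp

theorem s_NUM : S_NUM := fun _ _ hk hb => ⟨num1 hk hb, num2 hk⟩

end Pool.Agent.L7h22.TS
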